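import Mathlib

set_option autoImplicit false

namespace Pool.Agent.Results.MP_f4b4d0_co.Counter

def tm (k : ℕ) : ℕ := (Nat.digits 2 k).sum % 2

def STM (n : ℕ) : Finset ℕ := (Finset.range (2 ^ n)).filter fun k => tm k = 0

def TTM (n : ℕ) : Finset ℕ := (Finset.range (2 ^ n)).filter fun k => tm k = 1

def D (n : ℕ) (S T : Finset ℕ) : ℤ := ∑ s ∈ S, (s : ℤ) ^ n - ∑ t ∈ T, (t : ℤ) ^ n

def S0 : Finset ℕ := (Finset.range 128).filter fun k =>
  (140424923606754484207276454774034455145 : ℕ).testBit k = true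

def T0 : Finset ℕ := (Finset.range 128).filter fun k =>
  (140424923606754484207276454774034455145 : ℕ).testBit k = false

theorem result :
    ∃ n : ℕ, 1 ≤ n ∧ ∃ S T : Finset ℕ, S ∪ T = Finset.range (2 ^ n) ∧ Disjoint S T ∧
      (∀ i < n, ∑ s ∈ S, s ^ i = ∑ t ∈ T, t ^ i) ∧
      |D n S T| < |D n (STM n) (TTM n)| := by
  refine ⟨7, by norm_num, S0, T0, ?_, ?_, ?_, ?_⟩
  · decide +kernel
  · decide +kernel
  · decide +kernel
  · decide +kernel

end Pool.Agent.Results.MP_f4b4d0_co.Counter
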